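import Pool.Agent.helper87.FM.Spec

set_option autoImplicit false

namespace Pool.Agent.FM

open Polynomial Matrix Pool.Agent.helper42.NS Pool.Agent.FS

theorem KRB_hered {Q : ∀ t : ℕ, Matrix (Fin t) (Fin t) ℤ → Prop} {t : ℕ} {H : Matrix (Fin t) (Fin t) ℤ}
    (h : Hered Q t H) : Q t H := by
  cases t with
  | zero => exact h
  | succ t => exact h.1

/-- counting fibre by fibre -/
theorem KRB_fib {α β : Type} [Finite β] (A : Set α) (hA : A.Finite) (Z : Set (α × β)) (c d : ℕ)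
    (hZ : ∀ x ∈ Z, x.1 ∈ A) (h : ∀ a ∈ A, Set.ncard {b : β | (a, b) ∈ Z} * c ≤ d) :
    Z.ncard * c ≤ A.ncard * d := by
  classical
  have : Fintype β := Fintype.ofFinite β
  have hZf : Z.Finite := by
    refine (hA.prod (Set.finite_univ (α := β))).subset fun x hx => ?_
    exact ⟨hZ x hx, Set.mem_univ _⟩
  have e1 : Z.ncard = hZf.toFinset.card := Set.ncard_eq_toFinset_card Z hZf
  have e2 : A.ncard = hA.toFinset.card := Set.ncard_eq_toFinset_card A hA
  have e3 : hZf.toFinset.card = ∑ a ∈ hA.toFinset, (hZf.toFinset.filter fun x => x.1 = a).card :=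
    Finset.card_eq_sum_card_fiberwise fun x hx => by
      rw [Finset.mem_coe, Set.Finite.mem_toFinset] at hx ⊢
      exact hZ x hx
  rw [e1, e2, e3, Finset.sum_mul, ← smul_eq_mul (hA.toFinset.card), ← Finset.sum_const]
  refine Finset.sum_le_sum fun a ha => ?_
  rw [Set.Finite.mem_toFinset] at ha
  refine le_trans (Nat.mul_le_mul_right c ?_) (h a ha)
  have e4 : Set.ncard {b : β | (a, b) ∈ Z} = (Finset.univ.filter fun b : β => (a, b) ∈ Z).card := by
    rw [← Set.ncard_coe_finset]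
    congr 1
    ext b
    simp
  rw [e4]
  refine Finset.card_le_card_of_injOn (fun x => x.2) ?_ ?_
  · intro x hx
    rw [Finset.mem_coe, Finset.mem_filter, Set.Finite.mem_toFinset] at hx
    rw [Finset.mem_coe, Finset.mem_filter]
    refine ⟨Finset.mem_univ _, ?_⟩
    rw [← hx.2]
    exact hx.1
  · intro x hx y hy hxy
    rw [Finset.mem_coe, Finset.mem_filter] at hx hy
    exact Prod.ext (hx.2.trans hy.2.symm) hxy

/-- the tuples whose first `r` vectors lie in a given set -/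
theorem KRB_first {α : Type} [Fintype α] (r s : ℕ) (S : Set (Fin r → α)) (T : Set (Fin (r + s) → α))
    (hT : ∀ B ∈ T, (fun i => B (Fin.castAdd s i)) ∈ S) :
    T.ncard ≤ S.ncard * Fintype.card α ^ s := by
  classical
  have hS : S.Finite := Set.toFinite _
  have h1 : T.ncard ≤ (S ×ˢ (Set.univ : Set (Fin s → α))).ncard := by
    refine Set.ncard_le_ncard_of_injOn (fun B => (fun i => B (Fin.castAdd s i), fun i => B (Fin.natAdd r i))) ?_ ?_
      (Set.toFinite _)
    · intro B hB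
      exact ⟨hT B hB, Set.mem_univ _⟩
    · intro B _ B' _ h
      have h1 := congrArg Prod.fst h
      have h2 := congrArg Prod.snd h
      funext i
      refine Fin.addCases (fun i => ?_) (fun i => ?_) i
      · exact congrFun h1 i
      · exact congrFun h2 i
  rw [Set.ncard_prod, Set.ncard_univ, Nat.card_eq_fintype_card, Fintype.card_fun, Fintype.card_fin] at h1
  exact h1

theorem KRB (h1 : GSB_stmt) (h2 : SMT_stmt) (h3 : BGK_stmt) : KRB_stmt := by
  classical
  intro k a m hk hka hm1 hm2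
  obtain ⟨p, hpa, hp⟩ := Nat.exists_infinite_primes (2 ^ (3 * a))
  have g1 := h1 a m p (by omega) hp hpa hm1 hm2
  have g2 := h2 a m k (by omega) hk (by omega) hm1 hm2
  have hCX := CXF m k
  have hGfin : {H : Matrix (Fin m) (Fin m) ℤ | IsGr H}.Finite := CNT_fin m
  have hGcard : Set.ncard {H : Matrix (Fin m) (Fin m) ℤ | IsGr H} = 2 ^ (m.choose 2) := by
    have e := (CXF m 0).2
    have e1 : {HB : Matrix (Fin m) (Fin m) ℤ × (Fin 0 → Fin m → Bool) | IsGr HB.1} =
        {H : Matrix (Fin m) (Fin m) ℤ | IsGr H} ×ˢ (Set.univ : Set (Fin 0 → Fin m → Bool)) := by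
      ext x
      simp
    rw [e1, Set.ncard_prod, Set.ncard_univ, Nat.card_unique, mul_one, zero_mul, add_zero] at e
    exact e
  set Z1 : Set (Matrix (Fin m) (Fin m) ℤ × (Fin k → Fin m → Bool)) :=
    {HB | IsGr HB.1 ∧ ¬ W3 a p HB.1} with hZ1
  set Z2 : Set (Matrix (Fin m) (Fin m) ℤ × (Fin k → Fin m → Bool)) :=
    {HB | IsGr HB.1 ∧ Hered (W1 a) m HB.1 ∧ ∃ P : Pt, qP P < 2 ^ a ∧ Bad P HB.1 HB.2} with hZ2
  set Z3 : Set (Matrix (Fin m) (Fin m) ℤ × (Fin k → Fin m → Bool)) :=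
    {HB | IsGr HB.1 ∧ W3 a p HB.1 ∧ ∃ P : Pt, 2 ^ a ≤ qP P ∧ Bad P HB.1 HB.2} with hZ3
  have hsub : {HB : Matrix (Fin m) (Fin m) ℤ × (Fin k → Fin m → Bool) |
      IsGr HB.1 ∧ Kry HB.1 (Set.range fun i => ind (HB.2 i)) ≠ ⊤} ⊆ Z1 ∪ (Z2 ∪ Z3) := by
    rintro ⟨H, B⟩ ⟨hG, hne⟩
    dsimp only at hG hne
    by_cases hW : W3 a p H
    · right
      obtain ⟨P, u, hu0, huE, hS⟩ := PBH m H _ hG.2.2 hne
      have hd : ∀ b : Fin m → Bool, (∑ j, ((ind b j : ℤ) : KP P) * u j) = dotb b u := by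
        intro b
        unfold dotb ind
        refine Finset.sum_congr rfl fun j _ => ?_
        split_ifs
        · rw [Int.cast_one, one_mul]
        · rw [Int.cast_zero, zero_mul]
      have hB : Bad P H B := ⟨u, huE, hu0, fun i => by
        rw [← hd]
        exact hS _ ⟨i, rfl⟩⟩
      rcases lt_or_ge (qP P) (2 ^ a) with hq | hq
      · left
        exact ⟨hG, hW.1, P, hq, hB⟩
      · right
        exact ⟨hG, hW, P, hq, hB⟩
    · left
      exact ⟨hG, hW⟩
  have hfin : ∀ Z : Set (Matrix (Fin m) (Fin m) ℤ × (Fin k → Fin m → Bool)), (∀ x ∈ Z, IsGr x.1) → Z.Finite :=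
    fun Z hZ => hCX.1.subset fun x hx => hZ x hx
  have hf1 : Z1.Finite := hfin Z1 fun x hx => hx.1
  have hf2 : Z2.Finite := hfin Z2 fun x hx => hx.1
  have hf3 : Z3.Finite := hfin Z3 fun x hx => hx.1
  -- the first set
  have hc1 : Z1.ncard * 2 ^ a ≤ 2 ^ 14 * 2 ^ (m.choose 2 + k * m) := by
    have e1 : Z1 = {H : Matrix (Fin m) (Fin m) ℤ | IsGr H ∧ ¬ W3 a p H} ×ˢ
        (Set.univ : Set (Fin k → Fin m → Bool)) := by
      ext x
      rw [hZ1]
      simp
    have e2 : Nat.card (Fin k → Fin m → Bool) = 2 ^ (k * m) := by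
      rw [Nat.card_eq_fintype_card, Fintype.card_fun, Fintype.card_fun, Fintype.card_bool, Fintype.card_fin,
        Fintype.card_fin, ← pow_mul, mul_comm m k]
    rw [e1, Set.ncard_prod, Set.ncard_univ, e2, pow_add]
    have g1' : Set.ncard {H : Matrix (Fin m) (Fin m) ℤ | IsGr H ∧ ¬ W3 a p H} * 2 ^ a ≤
        2 ^ 14 * 2 ^ (m.choose 2) := g1
    calc Set.ncard {H : Matrix (Fin m) (Fin m) ℤ | IsGr H ∧ ¬ W3 a p H} * 2 ^ (k * m) * 2 ^ a =
        Set.ncard {H : Matrix (Fin m) (Fin m) ℤ | IsGr H ∧ ¬ W3 a p H} * 2 ^ a * 2 ^ (k * m) := by ring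
      _ ≤ 2 ^ 14 * 2 ^ (m.choose 2) * 2 ^ (k * m) := Nat.mul_le_mul_right _ g1'
      _ = 2 ^ 14 * (2 ^ (m.choose 2) * 2 ^ (k * m)) := by ring
  -- the third set
  have hc3 : Z3.ncard * 2 ^ a ≤ 2 ^ (m.choose 2 + k * m) := by
    obtain ⟨s, rfl⟩ : ∃ s, k = 176 + s := ⟨k - 176, by omega⟩
    have e1 := KRB_fib {H : Matrix (Fin m) (Fin m) ℤ | IsGr H} hGfin Z3 (2 ^ a) (2 ^ ((176 + s) * m))
      (fun x hx => hx.1) (by
        intro H hH
        by_cases hW : W3 a p H
        · have hW1 := KRB_hered hW.1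
          have hR := hW1.2 (le_trans (Nat.pow_le_pow_right (by norm_num) (by omega)) hm1)
          have e2 := h3 a m p H (by omega) hp hpa hm2 hH hR.1 hR.2 hW.2.1 hW.2.2
          have e3 := KRB_first 176 s {B : Fin 176 → Fin m → Bool | ∃ P : Pt, 2 ^ a ≤ qP P ∧ Bad P H B}
            {B : Fin (176 + s) → Fin m → Bool | (H, B) ∈ Z3} (by
              rintro B ⟨-, -, P, hq, u, huE, hu0, hB⟩
              exact ⟨P, hq, u, huE, hu0, fun i => hB _⟩)
          rw [Fintype.card_fun, Fintype.card_bool, Fintype.card_fin, ← pow_mul] at e3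
          calc Set.ncard {B : Fin (176 + s) → Fin m → Bool | (H, B) ∈ Z3} * 2 ^ a ≤
              Set.ncard {B : Fin 176 → Fin m → Bool | ∃ P : Pt, 2 ^ a ≤ qP P ∧ Bad P H B} * 2 ^ (m * s) * 2 ^ a :=
                Nat.mul_le_mul_right _ e3
            _ = Set.ncard {B : Fin 176 → Fin m → Bool | ∃ P : Pt, 2 ^ a ≤ qP P ∧ Bad P H B} * 2 ^ a * 2 ^ (m * s) := by
                ring
            _ ≤ 2 ^ (176 * m) * 2 ^ (m * s) := Nat.mul_le_mul_right _ e2
            _ = 2 ^ ((176 + s) * m) := by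
                rw [← pow_add]
                congr 1
                ring
        · have e4 : {B : Fin (176 + s) → Fin m → Bool | (H, B) ∈ Z3} = ∅ := by
            rw [Set.eq_empty_iff_forall_notMem]
            rintro B ⟨-, h, -⟩
            exact hW h
          rw [e4, Set.ncard_empty, zero_mul]
          exact Nat.zero_le _)
    rw [hGcard, ← pow_add] at e1
    exact e1
  have hfinU : (Z1 ∪ (Z2 ∪ Z3)).Finite := hf1.union (hf2.union hf3)
  have htot : Set.ncard {HB : Matrix (Fin m) (Fin m) ℤ × (Fin k → Fin m → Bool) |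
      IsGr HB.1 ∧ Kry HB.1 (Set.range fun i => ind (HB.2 i)) ≠ ⊤} ≤ Z1.ncard + (Z2.ncard + Z3.ncard) :=
    (Set.ncard_le_ncard hsub hfinU).trans ((Set.ncard_union_le _ _).trans
      (Nat.add_le_add_left (Set.ncard_union_le _ _) _))
  have hpow : 2 ^ k * 2 ^ 20 ≤ 2 ^ a := by
    rw [← pow_add]
    exact Nat.pow_le_pow_right (by norm_num) hka
  have d1 : Z1.ncard * 2 ^ k * 2 ^ 20 ≤ 2 ^ 14 * 2 ^ (m.choose 2 + k * m) := by
    refine le_trans ?_ hc1
    rw [mul_assoc]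
    exact Nat.mul_le_mul_left _ hpow
  have d3 : Z3.ncard * 2 ^ k * 2 ^ 20 ≤ 2 ^ (m.choose 2 + k * m) := by
    refine le_trans ?_ hc3
    rw [mul_assoc]
    exact Nat.mul_le_mul_left _ hpow
  have d2 : Z2.ncard * 2 ^ k ≤ 31 * 2 ^ (m.choose 2 + k * m) := g2
  refine le_trans (Nat.mul_le_mul_right _ htot) ?_
  have e5 : (Z1.ncard + (Z2.ncard + Z3.ncard)) * 2 ^ k =
      Z1.ncard * 2 ^ k + (Z2.ncard * 2 ^ k + Z3.ncard * 2 ^ k) := by ring
  rw [e5]
  generalize 2 ^ (m.choose 2 + k * m) = N at d1 d2 d3 ⊢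
  generalize Z1.ncard * 2 ^ k = x at d1 ⊢
  generalize Z2.ncard * 2 ^ k = y at d2 ⊢
  generalize Z3.ncard * 2 ^ k = z at d3 ⊢
  norm_num at d1 d3
  omega

end Pool.Agent.FM
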